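import Mathlib

set_option autoImplicit false

namespace Pool.Agent.TuranLimit
open Finset

/-- `T` is a family of triples meeting every `m`-set in a member -/
def Cov {V : Type*} (m : ℕ) (T : Finset (Finset V)) : Prop :=
  (∀ e ∈ T, e.card = 3) ∧ ∀ S : Finset V, S.card = m → ∃ e ∈ T, e ⊆ S

/-- least size of a covering family on `n` points -/
noncomputable def t (m n : ℕ) : ℕ :=
  sInf {k | ∃ T : Finset (Finset (Fin n)), Cov m T ∧ T.card = k}

lemma Cov.mono {V : Type*} {m m' : ℕ} {T : Finset (Finset V)} (h : Cov m T) (hm : m ≤ m') :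
    ∀ S : Finset V, m' ≤ S.card → ∃ e ∈ T, e ⊆ S := by
  intro S hS
  obtain ⟨S', hS', hc⟩ := exists_subset_card_eq (hm.trans hS)
  obtain ⟨e, he, hs⟩ := h.2 S' hc
  exact ⟨e, he, hs.trans hS'⟩

lemma Cov.map {V W : Type*} [DecidableEq V] [DecidableEq W] {m : ℕ} {T : Finset (Finset V)}
    (h : Cov m T) (f : V ≃ W) : Cov m (T.image (fun e => e.map f.toEmbedding)) := by
  constructor
  · intro e he
    rw [mem_image] at he
    obtain ⟨e', he', rfl⟩ := he
    rw [card_map]
    exact h.1 e' he'
  · intro S hS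
    obtain ⟨e, he, hs⟩ := h.2 (S.map f.symm.toEmbedding) (by rw [card_map]; exact hS)
    refine ⟨e.map f.toEmbedding, ?_, ?_⟩
    · rw [mem_image]
      exact ⟨e, he, rfl⟩
    · intro x hx
      rw [mem_map] at hx
      obtain ⟨y, hy, rfl⟩ := hx
      have := hs hy
      rw [mem_map] at this
      obtain ⟨z, hz, rfl⟩ := this
      simpa using hz

lemma t_le {V : Type*} [Fintype V] [DecidableEq V] {m : ℕ} {T : Finset (Finset V)}
    (h : Cov m T) {n : ℕ} (hn : Fintype.card V = n) : t m n ≤ T.card := by
  subst hn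
  unfold t
  refine Nat.sInf_le ⟨_, h.map (Fintype.equivFin V), ?_⟩
  rw [card_image_of_injective _ (map_injective _)]

lemma cov_all {V : Type*} [Fintype V] [DecidableEq V] {m : ℕ} (hm : 3 ≤ m) :
    Cov m ((univ : Finset V).powersetCard 3) := by
  constructor
  · intro e he
    exact (mem_powersetCard.1 he).2
  · intro S hS
    obtain ⟨e, he, hc⟩ := exists_subset_card_eq (hm.trans hS.ge)
    exact ⟨e, mem_powersetCard.2 ⟨subset_univ _, hc⟩, he⟩

lemma exists_t {m : ℕ} (hm : 3 ≤ m) (n : ℕ) :
    ∃ T : Finset (Finset (Fin n)), Cov m T ∧ T.card = t m n := by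
  have : {k | ∃ T : Finset (Finset (Fin n)), Cov m T ∧ T.card = k}.Nonempty :=
    ⟨_, _, cov_all hm, rfl⟩
  exact Nat.sInf_mem this

lemma t_le_choose {m : ℕ} (hm : 3 ≤ m) (n : ℕ) : t m n ≤ n.choose 3 := by
  have := t_le (cov_all (V := Fin n) hm) (Fintype.card_fin n)
  simpa using this

/-- one more edge-free level: with `m` points there is an edge -/
lemma t_pos {m : ℕ} (hm : 3 ≤ m) : 1 ≤ t m m := by
  obtain ⟨T, hT, hc⟩ := exists_t hm m
  obtain ⟨e, he, -⟩ := hT.2 univ (by simp)
  rw [← hc]
  exact card_pos.2 ⟨e, he⟩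

/-- averaging -/
lemma t_succ {m : ℕ} (hm : 3 ≤ m) (n : ℕ) : (n + 1) * t m n + 3 * t m (n+1) ≤ (n + 1) * t m (n+1) := by
  obtain ⟨T, hT, hc⟩ := exists_t hm (n+1)
  -- restriction to the complement of `v`
  have key : ∀ v : Fin (n+1), t m n ≤ (T.filter (fun e => v ∉ e)).card := by
    intro v
    let W := {x : Fin (n+1) // x ≠ v}
    let g : W ↪ Fin (n+1) := ⟨Subtype.val, Subtype.val_injective⟩
    have hW : Fintype.card W = n := by
      simp only [W, ne_eq]
      rw [Fintype.card_subtype_compl]
      simp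
    let T' : Finset (Finset W) := univ.filter (fun e => e.map g ∈ T)
    have hT' : Cov m T' := by
      constructor
      · intro e he
        simp only [T', mem_filter, mem_univ, true_and] at he
        have := hT.1 _ he
        rwa [card_map] at this
      · intro S hS
        obtain ⟨e, he, hs⟩ := hT.2 (S.map g) (by rw [card_map]; exact hS)
        obtain ⟨u, hu, rfl⟩ := subset_map_iff.1 hs
        exact ⟨u, by simp only [T', mem_filter, mem_univ, true_and]; exact he, hu⟩
    refine (t_le hT' hW).trans ?_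
    refine card_le_card_of_injOn (fun e => e.map g) ?_ ?_
    · intro e he
      simp only [T', coe_filter, mem_univ, true_and, Set.mem_setOf_eq] at he
      simp only [coe_filter, Set.mem_setOf_eq]
      refine ⟨he, fun hv => ?_⟩
      rw [mem_map] at hv
      obtain ⟨y, -, hy⟩ := hv
      exact y.2 hy
    · intro a _ b _ hab
      exact map_injective g hab
  have h1 : ∑ _v : Fin (n+1), t m n ≤ ∑ v : Fin (n+1), (T.filter (fun e => v ∉ e)).card :=
    sum_le_sum (fun v _ => key v)
  have h2 : ∑ v : Fin (n+1), (T.filter (fun e => v ∉ e)).card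
      + ∑ v : Fin (n+1), (T.filter (fun e => v ∈ e)).card = (n+1) * T.card := by
    rw [← sum_add_distrib]
    have : ∀ v : Fin (n+1), (T.filter (fun e => v ∉ e)).card + (T.filter (fun e => v ∈ e)).card
        = T.card := by
      intro v
      rw [add_comm]
      exact card_filter_add_card_filter_not (s := T) (fun e => v ∈ e)
    simp_rw [this]
    simp
  have h3 : ∑ v : Fin (n+1), (T.filter (fun e => v ∈ e)).card = 3 * T.card := by
    simp_rw [card_filter]
    rw [Finset.sum_comm]
    calc ∑ e ∈ T, ∑ v : Fin (n+1), (if v ∈ e then 1 else 0) = ∑ e ∈ T, 3 := by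
          refine sum_congr rfl (fun e he => ?_)
          rw [← card_filter]
          have : univ.filter (fun x => x ∈ e) = e := by ext; simp
          rw [this, hT.1 e he]
      _ = 3 * T.card := by rw [sum_const, smul_eq_mul, mul_comm]
  have h4 : ∑ _v : Fin (n+1), t m n = (n+1) * t m n := by simp
  rw [h4] at h1
  rw [hc] at h2 h3
  omega

/-- disjoint unions -/
lemma t_add {a b n₁ n₂ : ℕ} (ha : 3 ≤ a + 1) (hb : 3 ≤ b + 1) :
    t (a + b + 1) (n₁ + n₂) ≤ t (a + 1) n₁ + t (b + 1) n₂ := by
  obtain ⟨T₁, hT₁, hc₁⟩ := exists_t ha n₁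
  obtain ⟨T₂, hT₂, hc₂⟩ := exists_t hb n₂
  let T : Finset (Finset (Fin n₁ ⊕ Fin n₂)) :=
    T₁.image (fun e => e.map Function.Embedding.inl) ∪
    T₂.image (fun e => e.map Function.Embedding.inr)
  have hT : Cov (a + b + 1) T := by
    constructor
    · intro e he
      simp only [T, mem_union, mem_image] at he
      rcases he with ⟨e', he', rfl⟩ | ⟨e', he', rfl⟩
      · rw [card_map]; exact hT₁.1 _ he'
      · rw [card_map]; exact hT₂.1 _ he'
    · intro S hS
      have hsum : S.toLeft.card + S.toRight.card = S.card := card_toLeft_add_card_toRight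
      by_cases h : a + 1 ≤ S.toLeft.card
      · obtain ⟨e, he, hs⟩ := hT₁.mono le_rfl S.toLeft h
        refine ⟨e.map Function.Embedding.inl, ?_, ?_⟩
        · simp only [T, mem_union, mem_image]
          exact Or.inl ⟨e, he, rfl⟩
        · intro x hx
          rw [mem_map] at hx
          obtain ⟨y, hy, rfl⟩ := hx
          have := hs hy
          simpa using this
      · obtain ⟨e, he, hs⟩ := hT₂.mono le_rfl S.toRight (by omega)
        refine ⟨e.map Function.Embedding.inr, ?_, ?_⟩
        · simp only [T, mem_union, mem_image]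
          exact Or.inr ⟨e, he, rfl⟩
        · intro x hx
          rw [mem_map] at hx
          obtain ⟨y, hy, rfl⟩ := hx
          have := hs hy
          simpa using this
  have h1 := t_le hT (n := n₁ + n₂) (by simp)
  refine h1.trans ?_
  refine (card_union_le _ _).trans ?_
  refine add_le_add (card_image_le.trans hc₁.le) (card_image_le.trans hc₂.le)

/-- `m = 3` -/
lemma t_three (n : ℕ) : t 3 n = n.choose 3 := by
  refine le_antisymm (t_le_choose le_rfl n) ?_
  obtain ⟨T, hT, hc⟩ := exists_t (le_refl 3) n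
  rw [← hc]
  have : (univ : Finset (Fin n)).powersetCard 3 ⊆ T := by
    intro S hS
    obtain ⟨e, he, hs⟩ := hT.2 S (mem_powersetCard.1 hS).2
    have : e = S := eq_of_subset_of_card_le hs (by rw [hT.1 e he, (mem_powersetCard.1 hS).2])
    rw [← this]; exact he
  have := card_le_card this
  simpa using this

end Pool.Agent.TuranLimit
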