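import Mathlib
import Pool.Agent.TuranLimit.Basic

set_option autoImplicit false

namespace Pool.Agent.TuranLimit
open Finset

/-- colour class -/
def cls (k : ℕ) (i : ZMod 3) : Finset (ZMod 3 × Fin k) := univ.filter (fun x => x.1 = i)

lemma card_cls (k : ℕ) (i : ZMod 3) : (cls k i).card = k := by
  have : cls k i = ({i} : Finset (ZMod 3)) ×ˢ (univ : Finset (Fin k)) := by
    ext x
    rw [mem_product]
    simp only [cls, mem_filter, mem_univ, true_and, mem_singleton, and_true]
  rw [this, card_product]
  simp

/-- Turán's family -/
def T34 (k : ℕ) : Finset (Finset (ZMod 3 × Fin k)) :=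
  univ.biUnion (fun i : ZMod 3 => (cls k i).powersetCard 3 ∪
    ((cls k i).powersetCard 2 ×ˢ cls k (i+1)).image (fun p => insert p.2 p.1))

lemma disj_cls (k : ℕ) (i : ZMod 3) : Disjoint (cls k i) (cls k (i+1)) := by
  rw [disjoint_left]
  intro x hx hx'
  simp only [cls, mem_filter, mem_univ, true_and] at hx hx'
  rw [hx] at hx'
  have : (1 : ZMod 3) ≠ 0 := by decide
  exact this (by simpa using hx'.symm)

lemma T34_card (k : ℕ) : (T34 k).card ≤ 3 * (k.choose 3 + k.choose 2 * k) := by
  unfold T34
  refine card_biUnion_le.trans ?_
  have : ∀ i : ZMod 3, ((cls k i).powersetCard 3 ∪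
    ((cls k i).powersetCard 2 ×ˢ cls k (i+1)).image (fun p => insert p.2 p.1)).card
      ≤ k.choose 3 + k.choose 2 * k := by
    intro i
    refine (card_union_le _ _).trans ?_
    refine add_le_add ?_ ?_
    · rw [card_powersetCard, card_cls]
    · refine card_image_le.trans ?_
      rw [card_product, card_powersetCard, card_cls, card_cls]
  refine (sum_le_sum (fun i _ => this i)).trans ?_
  rw [sum_const]
  simp

lemma T34_cov (k : ℕ) : Cov 4 (T34 k) := by
  constructor
  · intro e he
    unfold T34 at he
    rw [mem_biUnion] at he
    obtain ⟨i, -, he⟩ := he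
    rw [mem_union] at he
    rcases he with he | he
    · exact (mem_powersetCard.1 he).2
    · rw [mem_image] at he
      obtain ⟨⟨P, x⟩, hp, rfl⟩ := he
      rw [mem_product, mem_powersetCard] at hp
      obtain ⟨⟨h1, h2⟩, h3⟩ := hp
      simp only at h1 h2 h3 ⊢
      rw [card_insert_of_notMem, h2]
      intro hx
      exact disjoint_left.1 (disj_cls k i) (h1 hx) h3
  · intro S hS
    let c : ZMod 3 → Finset (ZMod 3 × Fin k) := fun i => S.filter (fun x => x.1 = i)
    have hsum : (c 0).card + (c 1).card + (c 2).card = 4 := by
      have h := card_eq_sum_card_fiberwise (f := fun x : ZMod 3 × Fin k => x.1) (s := S)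
        (t := (univ : Finset (ZMod 3))) (fun x _ => mem_coe.2 (mem_univ _))
      have huniv : (univ : Finset (ZMod 3)) = {0, 1, 2} := by decide
      rw [huniv, sum_insert (by decide), sum_insert (by decide), sum_singleton] at h
      simp only [c]
      omega
    have key : ∃ i : ZMod 3, 2 ≤ (c i).card ∧ 3 ≤ (c i).card + (c (i+1)).card := by
      by_contra hcon
      push Not at hcon
      have h0 := hcon 0
      have h1 := hcon 1
      have h2 := hcon 2
      have e1 : (0 : ZMod 3) + 1 = 1 := by decide
      have e2 : (1 : ZMod 3) + 1 = 2 := by decide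
      have e3 : (2 : ZMod 3) + 1 = 0 := by decide
      rw [e1] at h0
      rw [e2] at h1
      rw [e3] at h2
      by_cases g0 : 2 ≤ (c 0).card
      · have := h0 g0
        by_cases g2 : 2 ≤ (c 2).card
        · have := h2 g2
          omega
        · by_cases g1 : 2 ≤ (c 1).card
          · have := h1 g1
            omega
          · omega
      · by_cases g2 : 2 ≤ (c 2).card
        · have := h2 g2
          by_cases g1 : 2 ≤ (c 1).card
          · have := h1 g1
            omega
          · omega
        · by_cases g1 : 2 ≤ (c 1).card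
          · have := h1 g1
            omega
          · omega
    obtain ⟨i, hi1, hi2⟩ := key
    have hsubi : ∀ j, c j ⊆ cls k j := by
      intro j x hx
      simp only [c, cls, mem_filter, mem_univ, true_and] at hx ⊢
      exact hx.2
    by_cases h3 : 3 ≤ (c i).card
    · obtain ⟨e, he, hce⟩ := exists_subset_card_eq h3
      refine ⟨e, ?_, ?_⟩
      · unfold T34
        rw [mem_biUnion]
        refine ⟨i, mem_univ _, ?_⟩
        rw [mem_union]
        left
        rw [mem_powersetCard]
        exact ⟨he.trans (hsubi i), hce⟩
      · exact he.trans (filter_subset _ _)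
    · obtain ⟨x, hx⟩ : (c (i+1)).Nonempty := by
        rw [← card_pos]; omega
      refine ⟨insert x (c i), ?_, ?_⟩
      · unfold T34
        rw [mem_biUnion]
        refine ⟨i, mem_univ _, ?_⟩
        rw [mem_union]
        right
        rw [mem_image]
        refine ⟨(c i, x), ?_, rfl⟩
        rw [mem_product, mem_powersetCard]
        have hci : (c i).card = 2 := by omega
        exact ⟨⟨hsubi i, hci⟩, hsubi _ hx⟩
      · intro y hy
        rw [mem_insert] at hy
        rcases hy with rfl | hy
        · exact (mem_filter.1 hx).1
        · exact (mem_filter.1 hy).1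

lemma t_four (k : ℕ) : t 4 (3 * k) ≤ 3 * (k.choose 3 + k.choose 2 * k) := by
  refine (t_le (T34_cov k) (n := 3 * k) ?_).trans (T34_card k)
  rw [Fintype.card_prod, ZMod.card, Fintype.card_fin]

end Pool.Agent.TuranLimit
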