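import Mathlib
import Pool.Agent.TuranLimit.Four

set_option autoImplicit false

namespace Pool.Agent.TuranLimit
open Finset Filter Topology

lemma choose3 (n : ℕ) : ((n.choose 3 : ℕ) : ℝ) = n * (n - 1) * (n - 2) / 6 := by
  induction n with
  | zero => simp
  | succ n ih =>
    rw [Nat.choose_succ_succ' n 2]
    push_cast
    rw [ih, Nat.cast_choose_two]
    ring

/-- ratio -/
noncomputable def r (m n : ℕ) : ℝ := (t m n : ℝ) / (n.choose 3 : ℕ)

lemma r_le_one {m : ℕ} (hm : 3 ≤ m) (n : ℕ) : r m n ≤ 1 := by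
  unfold r
  refine div_le_one_of_le₀ ?_ (Nat.cast_nonneg _)
  exact_mod_cast t_le_choose hm n

lemma r_nonneg (m n : ℕ) : 0 ≤ r m n := by
  unfold r; positivity

lemma r_succ {m : ℕ} (hm : 3 ≤ m) {n : ℕ} (hn : 3 ≤ n) : r m n ≤ r m (n+1) := by
  unfold r
  have h1 := t_succ hm n
  have h2 := Nat.choose_mul_succ_eq n 3
  have c1 : 0 < n.choose 3 := Nat.choose_pos hn
  have c2 : 0 < (n+1).choose 3 := Nat.choose_pos (by omega)
  rw [div_le_div_iff₀ (by exact_mod_cast c1) (by exact_mod_cast c2)]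
  have hn' : 0 < n + 1 - 3 := by omega
  have h3 : (n+1) * t m n ≤ (n + 1 - 3) * t m (n+1) := by
    have : (n + 1 - 3) * t m (n+1) + 3 * t m (n+1) = (n+1) * t m (n+1) := by
      rw [← add_mul]; congr 1; omega
    omega
  have h4 : (n + 1 - 3) * (t m n * (n+1).choose 3) ≤ (n + 1 - 3) * (t m (n+1) * n.choose 3) := by
    calc (n + 1 - 3) * (t m n * (n+1).choose 3) = t m n * ((n+1).choose 3 * (n+1-3)) := by ring
      _ = t m n * (n.choose 3 * (n+1)) := by rw [h2]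
      _ = ((n+1) * t m n) * n.choose 3 := by ring
      _ ≤ ((n + 1 - 3) * t m (n+1)) * n.choose 3 := Nat.mul_le_mul_right _ h3
      _ = _ := by ring
  have h5 := Nat.le_of_mul_le_mul_left h4 hn'
  exact_mod_cast h5

lemma r_mono {m : ℕ} (hm : 3 ≤ m) {n n' : ℕ} (hn : 3 ≤ n) (h : n ≤ n') : r m n ≤ r m n' := by
  induction n', h using Nat.le_induction with
  | base => exact le_rfl
  | succ k hk ih => exact ih.trans (r_succ hm (hn.trans hk))

/-- the limit density of coverings -/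
noncomputable def δ (m : ℕ) : ℝ := ⨆ n : ℕ, r m (n + 3)

lemma r_bdd {m : ℕ} (hm : 3 ≤ m) : BddAbove (Set.range (fun n : ℕ => r m (n+3))) := by
  refine ⟨1, ?_⟩
  rintro _ ⟨n, rfl⟩
  exact r_le_one hm _

lemma tendsto_r {m : ℕ} (hm : 3 ≤ m) : Tendsto (fun n => r m n) atTop (𝓝 (δ m)) := by
  rw [← tendsto_add_atTop_iff_nat 3]
  refine tendsto_atTop_ciSup ?_ (r_bdd hm)
  intro a b hab
  exact r_mono hm (by omega) (by omega)

lemma r_le_δ {m : ℕ} (hm : 3 ≤ m) {n : ℕ} (hn : 3 ≤ n) : r m n ≤ δ m := by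
  obtain ⟨k, rfl⟩ := Nat.exists_eq_add_of_le' hn
  exact le_ciSup (r_bdd hm) k

lemma δ_le_one {m : ℕ} (hm : 3 ≤ m) : δ m ≤ 1 := ciSup_le (fun n => r_le_one hm _)

lemma δ_pos {m : ℕ} (hm : 3 ≤ m) : 0 < δ m := by
  refine lt_of_lt_of_le ?_ (r_le_δ hm hm)
  unfold r
  have h1 := t_pos hm
  have h2 : 0 < m.choose 3 := Nat.choose_pos hm
  positivity

lemma t_le_δ {m : ℕ} (hm : 3 ≤ m) (n : ℕ) : (t m n : ℝ) ≤ δ m * ((n:ℝ)^3 / 6) := by
  have hc : ((n.choose 3 : ℕ) : ℝ) ≤ (n:ℝ)^3 / 6 := by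
    have := Nat.choose_le_pow_div (α := ℝ) 3 n
    simpa [Nat.factorial] using this
  by_cases hn : 3 ≤ n
  · have h1 := r_le_δ hm hn
    unfold r at h1
    have c1 : (0:ℝ) < (n.choose 3 : ℕ) := by exact_mod_cast Nat.choose_pos hn
    rw [div_le_iff₀ c1] at h1
    exact h1.trans (mul_le_mul_of_nonneg_left hc (δ_pos hm).le)
  · have h1 : t m n ≤ 0 := by
      have := t_le_choose hm n
      rwa [Nat.choose_eq_zero_of_lt (by omega)] at this
    have h2 : t m n = 0 := by omega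
    rw [h2]
    have := (δ_pos hm).le
    push_cast
    positivity

lemma δ_three : δ 3 = 1 := by
  refine le_antisymm (δ_le_one le_rfl) ?_
  refine le_trans (le_of_eq ?_) (r_le_δ le_rfl (le_refl 3))
  unfold r
  rw [t_three]
  simp

/-- the limit of `n^3/6 / C(n,3)` -/
lemma tendsto_cube : Tendsto (fun n : ℕ => ((n:ℝ)^3/6) / ((n.choose 3 : ℕ) : ℝ)) atTop (𝓝 1) := by
  have h0 : Tendsto (fun n : ℕ => (1:ℝ)/(n:ℝ)) atTop (𝓝 0) := tendsto_one_div_atTop_nhds_zero_nat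
  have h1 : Tendsto (fun n : ℕ => ((1 - 1/(n:ℝ)) * (1 - 2 * (1/(n:ℝ))))⁻¹) atTop
      (𝓝 (((1 - 0) * (1 - 2 * 0))⁻¹)) := by
    refine Tendsto.inv₀ ?_ (by norm_num)
    exact (tendsto_const_nhds.sub h0).mul (tendsto_const_nhds.sub (h0.const_mul 2))
  have h2 : ((1 - 0) * (1 - 2 * 0) : ℝ)⁻¹ = 1 := by norm_num
  rw [h2] at h1
  refine h1.congr' ?_
  filter_upwards [eventually_ge_atTop 3] with n hn
  have hn1 : (3:ℝ) ≤ n := by exact_mod_cast hn
  rw [choose3]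
  have a1 : (n:ℝ) ≠ 0 := by positivity
  have a2 : (n:ℝ) - 1 ≠ 0 := by intro h; linarith
  have a3 : (n:ℝ) - 2 ≠ 0 := by intro h; linarith
  field_simp

/-- the master inequality before optimisation -/
lemma δ_add {a b : ℕ} (ha : 2 ≤ a) (hb : 2 ≤ b) {p : ℝ} (hp0 : 0 ≤ p) (hp1 : p ≤ 1) :
    δ (a + b + 1) ≤ p^3 * δ (a+1) + (1-p)^3 * δ (b+1) := by
  have hlim : Tendsto (fun n : ℕ => (δ (a+1) * p^3 + δ (b+1) * ((1-p) + 1/(n:ℝ))^3)
      * (((n:ℝ)^3/6) / ((n.choose 3 : ℕ) : ℝ))) atTop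
      (𝓝 ((δ (a+1) * p^3 + δ (b+1) * ((1-p) + 0)^3) * 1)) := by
    refine Tendsto.mul ?_ tendsto_cube
    refine tendsto_const_nhds.add (tendsto_const_nhds.mul ?_)
    exact (tendsto_const_nhds.add tendsto_one_div_atTop_nhds_zero_nat).pow 3
  have h := le_of_tendsto_of_tendsto (tendsto_r (m := a + b + 1) (by omega)) hlim ?_
  · refine h.trans (le_of_eq ?_)
    ring
  filter_upwards [eventually_ge_atTop 3] with n hn
  have hn1 : (3:ℝ) ≤ n := by exact_mod_cast hn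
  have hn0 : (0:ℝ) < n := by linarith
  set n₁ := ⌊p * n⌋₊ with hn₁
  have e1 : (n₁ : ℝ) ≤ p * n := Nat.floor_le (by positivity)
  have e2 : p * n < n₁ + 1 := Nat.lt_floor_add_one _
  have e3 : n₁ ≤ n := by
    have : (n₁ : ℝ) ≤ n := e1.trans (by nlinarith)
    exact_mod_cast this
  obtain ⟨n₂, hn₂⟩ := Nat.exists_eq_add_of_le e3
  have e4 : (n₂ : ℝ) ≤ (1 - p) * n + 1 := by
    have : (n:ℝ) = n₁ + n₂ := by exact_mod_cast hn₂
    linarith
  have h1 : (t (a+b+1) n : ℝ) ≤ t (a+1) n₁ + t (b+1) n₂ := by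
    rw [hn₂]
    exact_mod_cast t_add (by omega) (by omega)
  have h2 := t_le_δ (m := a+1) (by omega) n₁
  have h3 := t_le_δ (m := b+1) (by omega) n₂
  have hδa := (δ_pos (m := a+1) (by omega)).le
  have hδb := (δ_pos (m := b+1) (by omega)).le
  have h4 : (n₁ : ℝ)^3 ≤ (p * n)^3 := pow_le_pow_left₀ (by positivity) e1 3
  have h5 : (n₂ : ℝ)^3 ≤ ((1 - p) * n + 1)^3 := pow_le_pow_left₀ (by positivity) e4 3
  have h6 : (t (a+b+1) n : ℝ) ≤ δ (a+1) * ((p * n)^3/6) + δ (b+1) * (((1 - p) * n + 1)^3/6) := by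
    have g1 : δ (a+1) * ((n₁ : ℝ)^3/6) ≤ δ (a+1) * ((p * n)^3/6) := by gcongr
    have g2 : δ (b+1) * ((n₂ : ℝ)^3/6) ≤ δ (b+1) * (((1 - p) * n + 1)^3/6) := by gcongr
    linarith
  unfold r
  have c1 : (0:ℝ) < (n.choose 3 : ℕ) := by exact_mod_cast Nat.choose_pos hn
  rw [div_le_iff₀ c1]
  refine h6.trans (le_of_eq ?_)
  field_simp

/-- the normalised parameter -/
noncomputable def f (a : ℕ) : ℝ := (Real.sqrt (δ (a+1)))⁻¹

lemma f_pos {a : ℕ} (ha : 2 ≤ a) : 0 < f a := by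
  unfold f
  have := δ_pos (m := a+1) (by omega)
  positivity

lemma δ_eq {a : ℕ} (ha : 2 ≤ a) : δ (a+1) = (f a ^ 2)⁻¹ := by
  unfold f
  have := δ_pos (m := a+1) (by omega)
  rw [inv_pow, inv_inv, Real.sq_sqrt this.le]

/-- superadditivity -/
lemma f_add {a b : ℕ} (ha : 2 ≤ a) (hb : 2 ≤ b) : f a + f b ≤ f (a + b) := by
  have ua := f_pos ha
  have ub := f_pos hb
  have uab := f_pos (a := a + b) (by omega)
  have h := δ_add ha hb (p := f a / (f a + f b)) (by positivity)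
    (by rw [div_le_one (by positivity)]; linarith)
  rw [δ_eq ha, δ_eq hb, δ_eq (a := a + b) (by omega)] at h
  have e : (f a / (f a + f b))^3 * (f a ^ 2)⁻¹ + (1 - f a / (f a + f b))^3 * (f b ^ 2)⁻¹
      = ((f a + f b)^2)⁻¹ := by
    field_simp
    ring
  rw [e] at h
  have h2 := (inv_le_inv₀ (by positivity) (by positivity)).1 h
  exact (sq_le_sq₀ (by positivity) uab.le).1 h2

lemma f_two : f 2 = 1 := by
  unfold f
  rw [δ_three]
  simp

lemma f_three : 3/2 ≤ f 3 := by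
  have h : δ 4 ≤ 4/9 := by
    have h1 : Tendsto (fun k : ℕ => r 4 (3 * k)) atTop (𝓝 (δ 4)) :=
      (tendsto_r (by norm_num)).comp (tendsto_id.const_mul_atTop' (by norm_num))
    have h2 : Tendsto (fun k : ℕ => (2 * (k:ℝ)^3) / ((((3*k : ℕ) : ℝ)^3/6))
        * ((((3*k : ℕ) : ℝ)^3/6) / (((3*k).choose 3 : ℕ) : ℝ))) atTop (𝓝 ((4/9) * 1)) := by
      refine Tendsto.mul ?_ (tendsto_cube.comp (tendsto_id.const_mul_atTop' (by norm_num)))
      refine tendsto_const_nhds.congr' ?_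
      filter_upwards [eventually_gt_atTop 0] with k hk
      have : (0:ℝ) < k := by exact_mod_cast hk
      push_cast
      field_simp
      norm_num
    have h3 := le_of_tendsto_of_tendsto h1 h2 ?_
    · linarith
    filter_upwards [eventually_ge_atTop 3] with k hk
    have hk0 : (3:ℝ) ≤ k := by exact_mod_cast hk
    have c1 : (0:ℝ) < ((3*k).choose 3 : ℕ) := by exact_mod_cast Nat.choose_pos (by omega)
    unfold r
    have h4 : (t 4 (3*k) : ℝ) ≤ 3 * ((k.choose 3 : ℕ) + (k.choose 2 : ℕ) * k) := by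
      exact_mod_cast t_four k
    rw [choose3, Nat.cast_choose_two] at h4
    have h5 : (t 4 (3*k) : ℝ) ≤ 2 * (k:ℝ)^3 := by
      refine h4.trans ?_
      nlinarith [hk0, sq_nonneg (k:ℝ)]
    have hk1 : (0:ℝ) < (((3*k : ℕ) : ℝ)^3/6) := by
      have : (0:ℝ) < ((3*k : ℕ) : ℝ) := by
        have : 0 < 3 * k := by omega
        exact_mod_cast this
      positivity
    rw [div_mul_div_cancel₀ hk1.ne']
    exact div_le_div_of_nonneg_right h5 c1.le
  unfold f
  have hp := δ_pos (m := 4) (by norm_num)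
  have h1 : Real.sqrt (δ (3+1)) ≤ 2/3 := by
    rw [Real.sqrt_le_left (by norm_num)]
    norm_num
    linarith
  have h2 : 0 < Real.sqrt (δ (3+1)) := Real.sqrt_pos.2 hp
  calc (3/2 : ℝ) = (2/3)⁻¹ := by norm_num
    _ ≤ (Real.sqrt (δ (3+1)))⁻¹ := inv_anti₀ h2 h1

/-- the lower bound from Turán's constructions -/
lemma f_lower {a : ℕ} (ha : 2 ≤ a) : (a:ℝ)/2 ≤ f a := by
  induction a using Nat.strong_induction_on with
  | _ a ih =>
    by_cases h2 : a = 2
    · subst h2; rw [f_two]; norm_num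
    by_cases h3 : a = 3
    · subst h3; have := f_three; push_cast; linarith
    obtain ⟨b, rfl⟩ : ∃ b, a = b + 2 := ⟨a - 2, by omega⟩
    have h := ih b (by omega) (by omega)
    have h4 := f_add (a := b) (b := 2) (by omega) le_rfl
    rw [f_two] at h4
    push_cast
    linarith

end Pool.Agent.TuranLimit
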