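import Mathlib
import Pool.Agent.TuranLimit.Limit

set_option autoImplicit false

namespace Pool.Agent.TuranLimit
open Finset Filter Topology

/-- the Turán number -/
noncomputable def ex (m n : ℕ) : ℕ :=
  sSup {k : ℕ | ∃ H : Finset (Finset (Fin n)), (∀ e ∈ H, e.card = 3) ∧
    (∀ S : Finset (Fin n), S.card = m → ¬ (S.powersetCard 3 ⊆ H)) ∧ H.card = k}

lemma ex_add_t {m : ℕ} (hm : 3 ≤ m) (n : ℕ) : ex m n + t m n = n.choose 3 := by
  obtain ⟨T, hT, hc⟩ := exists_t hm n
  have hTsub : T ⊆ (univ : Finset (Fin n)).powersetCard 3 := by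
    intro e he
    exact mem_powersetCard.2 ⟨subset_univ _, hT.1 e he⟩
  have hall : ((univ : Finset (Fin n)).powersetCard 3).card = n.choose 3 := by simp
  have key : IsGreatest {k : ℕ | ∃ H : Finset (Finset (Fin n)), (∀ e ∈ H, e.card = 3) ∧
    (∀ S : Finset (Fin n), S.card = m → ¬ (S.powersetCard 3 ⊆ H)) ∧ H.card = k}
      (n.choose 3 - t m n) := by
    constructor
    · refine ⟨(univ : Finset (Fin n)).powersetCard 3 \ T, ?_, ?_, ?_⟩
      · intro e he
        exact (mem_powersetCard.1 (mem_sdiff.1 he).1).2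
      · intro S hS hs
        obtain ⟨e, he, hes⟩ := hT.2 S hS
        have := hs (mem_powersetCard.2 ⟨hes, hT.1 e he⟩)
        exact (mem_sdiff.1 this).2 he
      · rw [card_sdiff_of_subset hTsub, hall, hc]
    · rintro k ⟨H, h1, h2, rfl⟩
      have hHsub : H ⊆ (univ : Finset (Fin n)).powersetCard 3 := by
        intro e he
        exact mem_powersetCard.2 ⟨subset_univ _, h1 e he⟩
      have hcov : Cov m ((univ : Finset (Fin n)).powersetCard 3 \ H) := by
        constructor
        · intro e he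
          exact (mem_powersetCard.1 (mem_sdiff.1 he).1).2
        · intro S hS
          have := h2 S hS
          rw [not_subset] at this
          obtain ⟨e, he, heH⟩ := this
          rw [mem_powersetCard] at he
          exact ⟨e, mem_sdiff.2 ⟨mem_powersetCard.2 ⟨subset_univ _, he.2⟩, heH⟩, he.1⟩
      have h3 := t_le hcov (Fintype.card_fin n)
      rw [card_sdiff_of_subset hHsub, hall] at h3
      have h4 := card_le_card hHsub
      rw [hall] at h4
      omega
  have h1 : ex m n = n.choose 3 - t m n := key.csSup_eq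
  have h2 := t_le_choose hm n
  omega

lemma tendsto_ex {m : ℕ} (hm : 3 ≤ m) :
    Tendsto (fun n : ℕ => (ex m n : ℝ) / ((n.choose 3 : ℕ) : ℝ)) atTop (𝓝 (1 - δ m)) := by
  have h := (tendsto_const_nhds (x := (1:ℝ))).sub (tendsto_r hm)
  refine h.congr' ?_
  filter_upwards [eventually_ge_atTop 3] with n hn
  have c1 : (0:ℝ) < (n.choose 3 : ℕ) := by exact_mod_cast Nat.choose_pos hn
  have := ex_add_t hm n
  have h2 : (ex m n : ℝ) = (n.choose 3 : ℕ) - t m n := by
    have : ((ex m n + t m n : ℕ) : ℝ) = (n.choose 3 : ℕ) := by rw [this]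
    push_cast at this
    linarith
  unfold r
  rw [h2]
  field_simp

/-- Turán's density conjecture for the single value `m` -/
def TuranAt (m : ℕ) : Prop :=
  Tendsto (fun n : ℕ => (ex m n : ℝ) / ((n.choose 3 : ℕ) : ℝ)) atTop
    (𝓝 (1 - (2 / ((m : ℝ) - 1)) ^ 2))

lemma turanAt_iff {m : ℕ} (hm : 3 ≤ m) : TuranAt m ↔ f (m - 1) ≤ ((m:ℝ) - 1)/2 := by
  obtain ⟨a, rfl⟩ : ∃ a, m = a + 1 := ⟨m - 1, by omega⟩
  have ha : 2 ≤ a := by omega
  have ha' : (2:ℝ) ≤ a := by exact_mod_cast ha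
  have e0 : a + 1 - 1 = a := by omega
  have hf := f_pos ha
  have hl := f_lower ha
  rw [e0]
  constructor
  · intro h
    have h1 := tendsto_nhds_unique h (tendsto_ex hm)
    rw [δ_eq ha] at h1
    have h2 : (f a ^ 2)⁻¹ = (2 / (a:ℝ))^2 := by
      have : (2 / (((a + 1 : ℕ) : ℝ) - 1))^2 = (2 / (a:ℝ))^2 := by push_cast; ring_nf
      rw [this] at h1
      linarith
    have h3 : f a ^ 2 = ((a:ℝ)/2)^2 := by
      have : f a ^ 2 = ((f a ^ 2)⁻¹)⁻¹ := by rw [inv_inv]
      rw [this, h2, ← inv_pow, inv_div]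
    have h4 := (sq_eq_sq₀ hf.le (by positivity)).1 h3
    rw [h4]
    push_cast
    linarith
  · intro h
    have h1 : f a = (a:ℝ)/2 := by
      push_cast at h
      linarith
    unfold TuranAt
    have h2 := tendsto_ex hm
    rw [δ_eq ha, h1] at h2
    have : (1 - (((a:ℝ)/2)^2)⁻¹) = 1 - (2 / (((a + 1 : ℕ) : ℝ) - 1)) ^ 2 := by
      rw [← inv_pow, inv_div]
      push_cast
      ring_nf
    rw [this] at h2
    exact h2

theorem downward {m m' : ℕ} (h3 : 3 ≤ m') (h : m' + 2 ≤ m) (hT : TuranAt m) : TuranAt m' := by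
  rw [turanAt_iff (by omega)] at hT
  rw [turanAt_iff h3]
  have h1 := f_add (a := m' - 1) (b := m - m') (by omega) (by omega)
  have h2 := f_lower (a := m - m') (by omega)
  have e : m' - 1 + (m - m') = m - 1 := by omega
  rw [e] at h1
  have e2 : ((m - m' : ℕ) : ℝ) = m - m' := by
    rw [Nat.cast_sub (by omega)]
  rw [e2] at h2
  linarith

/-- normalised sequence -/
lemma g_eq {a : ℕ} (ha : 2 ≤ a) : (((a + 1 : ℕ) : ℝ) - 1)^2 * δ (a+1) = ((a:ℝ) / f a)^2 := by
  rw [δ_eq ha]
  push_cast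
  field_simp
  ring

theorem limit_exists : ∃ c : ℝ, Tendsto (fun m : ℕ => ((m:ℝ) - 1)^2 * δ m) atTop (𝓝 c) ∧
    (∀ m : ℕ, 3 ≤ m → c ≤ ((m:ℝ) - 1)^2 * δ m) ∧ (c = 4 ↔ ∀ m : ℕ, 4 ≤ m → TuranAt m) := by
  let A : Set ℝ := {x | ∃ m : ℕ, 3 ≤ m ∧ x = ((m:ℝ) - 1)^2 * δ m}
  have hA0 : ∀ x ∈ A, 0 ≤ x := by
    rintro x ⟨m, hm, rfl⟩
    have := (δ_pos hm).le
    positivity
  have hbdd : BddBelow A := ⟨0, hA0⟩
  have hne : A.Nonempty := ⟨_, 3, le_rfl, rfl⟩
  have hle : ∀ m : ℕ, 3 ≤ m → sInf A ≤ ((m:ℝ) - 1)^2 * δ m := fun m hm =>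
    csInf_le hbdd ⟨m, hm, rfl⟩
  have hlim : Tendsto (fun m : ℕ => ((m:ℝ) - 1)^2 * δ m) atTop (𝓝 (sInf A)) := by
    rw [tendsto_order]
    constructor
    · intro x hx
      filter_upwards [eventually_ge_atTop 3] with m hm
      exact hx.trans_le (hle m hm)
    · intro x hx
      obtain ⟨y, ⟨m₀, hm₀, rfl⟩, hy⟩ := exists_lt_of_csInf_lt hne hx
      obtain ⟨a₀, rfl⟩ : ∃ a₀, m₀ = a₀ + 1 := ⟨m₀ - 1, by omega⟩
      have ha₀ : 2 ≤ a₀ := by omega
      rw [g_eq ha₀] at hy
      have hf0 := f_pos ha₀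
      have ha0' : (2:ℝ) ≤ a₀ := by exact_mod_cast ha₀
      -- multiples
      have hmul : ∀ q : ℕ, ∀ s : ℕ, 2 ≤ s → (q:ℝ) * f a₀ + f s ≤ f (q * a₀ + s) := by
        intro q
        induction q with
        | zero => intro s _; simp
        | succ q ih =>
          intro s hs
          have h1 := ih (a₀ + s) (by omega)
          have h2 := f_add ha₀ hs
          have e : (q + 1) * a₀ + s = q * a₀ + (a₀ + s) := by ring
          rw [e]
          push_cast
          linarith
      -- upper bound sequence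
      have hup : ∀ a : ℕ, 2 * a₀ + 4 ≤ a → (a:ℝ) / f a ≤ (a:ℝ) / (((a:ℝ)/a₀ - 2 - 2/a₀) * f a₀) := by
        intro a ha
        have hq := Nat.div_add_mod (a - 2) a₀
        have hmod := Nat.mod_lt (a - 2) (show 0 < a₀ by omega)
        set q := (a - 2) / a₀
        set s := (a - 2) % a₀
        have e : a = q * a₀ + (s + 2) := by
          rw [mul_comm] at hq; omega
        have h1 := hmul q (s + 2) (by omega)
        rw [← e] at h1
        have h2 := f_pos (a := s + 2) (by omega)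
        have hs' : (s:ℝ) < a₀ := by exact_mod_cast hmod
        have e' : (a:ℝ) = q * a₀ + (s + 2) := by exact_mod_cast e
        have a0pos : (0:ℝ) < a₀ := by linarith
        have h3 : (a:ℝ)/a₀ - 2 - 2/a₀ ≤ q := by
          have : (a:ℝ)/a₀ = q + (s + 2)/a₀ := by
            rw [e']; field_simp
          rw [this, add_div]
          have : (s:ℝ)/a₀ ≤ 1 := by rw [div_le_one a0pos]; exact hs'.le
          linarith
        have ha' : (2 * (a₀:ℝ) + 4) ≤ a := by exact_mod_cast ha
        have h4 : 0 < (a:ℝ)/a₀ - 2 - 2/a₀ := by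
          have : (a:ℝ)/a₀ - 2 - 2/a₀ = (a - 2 * a₀ - 2)/a₀ := by field_simp
          rw [this]
          apply div_pos _ a0pos
          linarith
        have h5 : ((a:ℝ)/a₀ - 2 - 2/a₀) * f a₀ ≤ f a := by
          have := mul_le_mul_of_nonneg_right h3 hf0.le
          linarith
        exact div_le_div_of_nonneg_left (by positivity) (by positivity) h5
      have hlim2 : Tendsto (fun a : ℕ => ((a:ℝ) / (((a:ℝ)/a₀ - 2 - 2/a₀) * f a₀))^2) atTop
          (𝓝 (((a₀:ℝ) / f a₀)^2)) := by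
        refine Tendsto.pow ?_ 2
        have h0 : Tendsto (fun n : ℕ => (1:ℝ)/(n:ℝ)) atTop (𝓝 0) :=
          tendsto_one_div_atTop_nhds_zero_nat
        have h1 : Tendsto (fun n : ℕ => ((1/(a₀:ℝ) - (2 + 2/a₀) * (1/(n:ℝ))) * f a₀)⁻¹) atTop
            (𝓝 (((1/(a₀:ℝ) - (2 + 2/a₀) * 0) * f a₀)⁻¹)) := by
          refine Tendsto.inv₀ ?_ ?_
          · exact (tendsto_const_nhds.sub (h0.const_mul _)).mul_const _
          · have : (0:ℝ) < 1/(a₀:ℝ) := by positivity
            simp only [mul_zero, sub_zero]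
            positivity
        have e : (((1/(a₀:ℝ) - (2 + 2/a₀) * 0) * f a₀)⁻¹) = (a₀:ℝ) / f a₀ := by
          simp only [mul_zero, sub_zero]
          field_simp
        rw [e] at h1
        refine h1.congr' ?_
        filter_upwards [eventually_ge_atTop (2 * a₀ + 4)] with a ha
        have ha' : (2 * (a₀:ℝ) + 4) ≤ a := by exact_mod_cast ha
        have apos : (0:ℝ) < a := by linarith
        have a0pos : (0:ℝ) < a₀ := by linarith
        have h4 : (a:ℝ)/a₀ - 2 - 2/a₀ ≠ 0 := by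
          have : (a:ℝ)/a₀ - 2 - 2/a₀ = (a - 2 * a₀ - 2)/a₀ := by field_simp
          rw [this]
          have : (0:ℝ) < (a - 2 * a₀ - 2)/a₀ := by
            apply div_pos _ a0pos
            linarith
          exact this.ne'
        have h5 : (1/(a₀:ℝ) - (2 + 2/a₀) * (1/(a:ℝ))) = ((a:ℝ)/a₀ - 2 - 2/a₀)/a := by
          field_simp
          ring
        rw [h5]
        field_simp
      have hev := (tendsto_order.1 hlim2).2 x hy
      have hev2 : ∀ᶠ a : ℕ in atTop, (((a+1 : ℕ):ℝ) - 1)^2 * δ (a+1) < x := by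
        filter_upwards [hev, eventually_ge_atTop (2 * a₀ + 4)] with a h1 h2
        rw [g_eq (by omega)]
        refine lt_of_le_of_lt ?_ h1
        have := f_pos (a := a) (by omega)
        exact pow_le_pow_left₀ (by positivity) (hup a h2) 2
      exact (eventually_atTop.2 (by
        obtain ⟨N, hN⟩ := eventually_atTop.1 hev2
        refine ⟨N + 1, fun m hm => ?_⟩
        obtain ⟨a, rfl⟩ : ∃ a, m = a + 1 := ⟨m - 1, by omega⟩
        exact hN a (by omega)))
  refine ⟨sInf A, hlim, hle, ?_, ?_⟩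
  · intro h4 m hm
    rw [turanAt_iff (by omega)]
    obtain ⟨a, rfl⟩ : ∃ a, m = a + 1 := ⟨m - 1, by omega⟩
    have ha : 2 ≤ a := by omega
    have ha' : (2:ℝ) ≤ a := by exact_mod_cast ha
    have h1 := hle (a+1) (by omega)
    rw [g_eq ha, h4] at h1
    have hf := f_pos ha
    have h2 : (2:ℝ)^2 ≤ ((a:ℝ)/f a)^2 := by linarith
    have h3 := (sq_le_sq₀ (by norm_num) (by positivity)).1 h2
    rw [le_div_iff₀ hf] at h3
    have e0 : a + 1 - 1 = a := by omega
    rw [e0]
    push_cast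
    linarith
  · intro h
    refine tendsto_nhds_unique hlim ?_
    refine tendsto_const_nhds.congr' ?_
    filter_upwards [eventually_ge_atTop 4] with m hm
    have h1 := (turanAt_iff (by omega)).1 (h m hm)
    obtain ⟨a, rfl⟩ : ∃ a, m = a + 1 := ⟨m - 1, by omega⟩
    have ha : 2 ≤ a := by omega
    have ha' : (2:ℝ) ≤ a := by exact_mod_cast ha
    have e0 : a + 1 - 1 = a := by omega
    rw [e0] at h1
    rw [g_eq ha]
    have hf := f_lower ha
    have : f a = (a:ℝ)/2 := by
      push_cast at h1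
      linarith
    rw [this]
    field_simp
    norm_num

end Pool.Agent.TuranLimit
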